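import Pool.Agent.H37.CNT.Stmts

/-!
# Board `cnt`, row RSP: restriction of a place to a subfield
-/

set_option autoImplicit false

namespace Pool.CND

theorem rsp_thm : S_RSP := by
  intro k L L' _ _ _ _ _ j P' t ht
  have hj : ∀ z : L, z ≠ 0 → j z ≠ 0 := fun z hz => by
    rw [Ne, map_eq_zero]; exact hz
  let H : AddSubgroup ℤ :=
    { carrier := {n | ∃ z : L, z ≠ 0 ∧ P'.ord (j z) = n}
      add_mem' := by
        rintro a b ⟨x, hx, rfl⟩ ⟨y, hy, rfl⟩
        exact ⟨x * y, mul_ne_zero hx hy, by rw [map_mul, P'.ord_mul _ _ (hj x hx) (hj y hy)]⟩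
      zero_mem' := ⟨1, one_ne_zero, by rw [map_one, P'.ord_one]⟩
      neg_mem' := by
        rintro a ⟨x, hx, rfl⟩
        exact ⟨x⁻¹, inv_ne_zero hx, by rw [map_inv₀, P'.ord_inv (hj x hx)]⟩ }
  have hmem : ∀ z : L, z ≠ 0 → P'.ord (j z) ∈ H := fun z hz => ⟨z, hz, rfl⟩
  obtain ⟨a, ha⟩ := Int.subgroup_cyclic H
  have ha' : ∀ n : ℤ, n ∈ H ↔ a ∣ n := by
    intro n
    rw [ha, ← AddSubgroup.zmultiples_eq_closure, Int.mem_zmultiples_iff]
  have ha0 : a ≠ 0 := by
    rintro rfl
    have h0 : ∀ z : L, z ≠ 0 → P'.ord (j z) = 0 := fun z hz => by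
      have := (ha' _).1 (hmem z hz)
      exact zero_dvd_iff.1 this
    have ht0 : t ≠ 0 := by
      rintro rfl
      exact ht isAlgebraic_zero
    obtain ⟨c, hc⟩ := P'.residue (j t) (hj t ht0) (h0 t ht0).ge
    have hcj : algebraMap k L' c = j (algebraMap k L c) := (j.commutes c).symm
    have htc : t = algebraMap k L c := by
      by_contra hne
      rcases hc with hc | hc
      · rw [hcj] at hc
        exact hne (j.injective hc)
      · rw [hcj, ← map_sub, h0 _ (sub_ne_zero.2 hne)] at hc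
        exact lt_irrefl _ hc
    exact ht (by rw [htc]; exact isAlgebraic_algebraMap c)
  set e : ℕ := a.natAbs with he
  have he1 : 1 ≤ e := Nat.one_le_iff_ne_zero.2 (Int.natAbs_ne_zero.2 ha0)
  have he0 : (e : ℤ) ≠ 0 := by exact_mod_cast (by omega : e ≠ 0)
  have hepos : (0 : ℤ) < (e : ℤ) := by exact_mod_cast he1
  have hdvd : ∀ z : L, z ≠ 0 → (e : ℤ) ∣ P'.ord (j z) := fun z hz => by
    rw [he, Int.natAbs_dvd]
    exact (ha' _).1 (hmem z hz)
  have hdiv : ∀ z : L, z ≠ 0 → (e : ℤ) * (P'.ord (j z) / (e : ℤ)) = P'.ord (j z) := fun z hz =>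
    Int.mul_ediv_cancel' (hdvd z hz)
  refine ⟨e,
    { ord := fun z => P'.ord (j z) / (e : ℤ)
      ord_mul := ?_
      ord_add := ?_
      ord_surj := ?_
      ord_const := ?_
      residue := ?_ }, he1, hdiv⟩
  · intro x y hx hy
    apply mul_left_cancel₀ he0
    rw [mul_add, hdiv _ (mul_ne_zero hx hy), hdiv _ hx, hdiv _ hy, map_mul,
      P'.ord_mul _ _ (hj x hx) (hj y hy)]
  · intro x y hx hy hxy
    have h1 := P'.ord_add (j x) (j y) (hj x hx) (hj y hy) (by rw [← map_add]; exact hj _ hxy)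
    rw [← map_add] at h1
    rcases min_le_iff.1 h1 with h | h
    · exact min_le_iff.2 (Or.inl (Int.ediv_le_ediv hepos h))
    · exact min_le_iff.2 (Or.inr (Int.ediv_le_ediv hepos h))
  · have h1 : (e : ℤ) ∈ H := (ha' _).2 (by rw [he, Int.dvd_natAbs])
    obtain ⟨x, hx, hxe⟩ := h1
    exact ⟨x, hx, by rw [hxe]; exact Int.ediv_self he0⟩
  · intro c hc
    have h1 : j (algebraMap k L c) = algebraMap k L' c := j.commutes c
    rw [h1, P'.ord_const c hc]
    exact Int.zero_ediv _
  · intro x hx hx0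
    have h1 : 0 ≤ P'.ord (j x) := by
      rw [← hdiv x hx]
      exact mul_nonneg hepos.le hx0
    obtain ⟨c, hc⟩ := P'.residue (j x) (hj x hx) h1
    have hcj : algebraMap k L' c = j (algebraMap k L c) := (j.commutes c).symm
    refine ⟨c, ?_⟩
    by_cases hxc : x = algebraMap k L c
    · exact Or.inl hxc
    · right
      rcases hc with hc | hc
      · rw [hcj] at hc
        exact absurd (j.injective hc) hxc
      · rw [hcj, ← map_sub] at hc
        by_contra hle
        have h2 := hdiv _ (sub_ne_zero.2 hxc)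
        have h3 : (e : ℤ) * (P'.ord (j (x - algebraMap k L c)) / (e : ℤ)) ≤ 0 :=
          mul_nonpos_of_nonneg_of_nonpos hepos.le (not_lt.1 hle)
        omega

end Pool.CND
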